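import Pool.Agent.J4.H29.SP.Fin4

/-!
# Schinzel's Goldbach-type hypothesis for `g = 1` and linear `G`: few exceptions, `F(n) = P_r`

For `F` irreducible of degree `h` and `G` linear, all but a power-saving number of the admissible
`N ≤ X` satisfy: for at least `δ 𝔖(N) N / log² N` positive integers `n` the number `N - G(n)` is a
prime and `F(n)` has at most `h + 1` prime factors, all of them at least `N ^ (1 / 9)`.
-/

set_option autoImplicit false

namespace Pool.Agent.Results.MP_0bf1d2_nt.LinearFewExceptions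

open Polynomial Finset

/-- `N` is admissible for `F` and `G`: `N - G` is irreducible in `ℤ[X]` and `F (N - G)` has no fixed
prime divisor. -/
def Admissible (F G : ℤ[X]) (N : ℕ) : Prop :=
  Irreducible (C (N : ℤ) - G) ∧
    ∀ p : ℕ, p.Prime → ∃ n : ℤ, ¬ (p : ℤ) ∣ (F * (C (N : ℤ) - G)).eval n

/-- `ω_N(p)`: the number of residues `n` modulo `p` with `F(n) (N - G(n)) ≡ 0`. -/
noncomputable def omega (F G : ℤ[X]) (N p : ℕ) : ℕ :=
  ((range p).filter (fun n : ℕ => (p : ℤ) ∣ (F * (C (N : ℤ) - G)).eval (n : ℤ))).card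

/-- The partial product over the primes `p ≤ y` of the singular series `𝔖(N)` (case `g = 1`). -/
noncomputable def singular (F G : ℤ[X]) (N y : ℕ) : ℝ :=
  ∏ p ∈ (Icc 1 y).filter Nat.Prime, (1 - (omega F G N p : ℝ) / p) * ((1 - 1 / (p : ℝ))⁻¹) ^ 2

/-- The positive integers `n` for which `N - G(n)` is a prime and `F(n)` is positive and has at
most `r` prime factors, counted with multiplicity, all of them at least `N ^ (1 / 9)`. -/
def Good (F G : ℤ[X]) (r N : ℕ) : Set ℕ :=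
  {n : ℕ | 0 < n ∧ (∃ p : ℕ, p.Prime ∧ (N : ℤ) - G.eval (n : ℤ) = p) ∧ 0 < F.eval (n : ℤ) ∧
    (F.eval (n : ℤ)).natAbs.primeFactorsList.length ≤ r ∧
    ∀ q : ℕ, q.Prime → q ∣ (F.eval (n : ℤ)).natAbs → (N : ℝ) ^ ((1 : ℝ) / 9) ≤ q}

/-- Richert's constant `Λ_r = 1 + log ((3 ^ r + 1) / 4) / log 3`, which exceeds `r - 0.265`. -/
noncomputable def Lam (r : ℕ) : ℝ := 1 + Real.log ((3 ^ r + 1) / 4) / Real.log 3

open Classical in
/-- `N ≤ X` is counted if it is admissible and, for some `y ≥ N`, fewer than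
`δ 𝔖_y(N) N / log² N` integers are `Good`; `𝔖_y(N)` is the partial product of `𝔖(N)`. -/
noncomputable def exceptions (F G : ℤ[X]) (r : ℕ) (δ : ℝ) (X : ℕ) : ℕ :=
  ((Icc 1 X).filter (fun N : ℕ => Admissible F G N ∧
    ∃ y : ℕ, N ≤ y ∧ ((Good F G r N).ncard : ℝ) <
      δ * singular F G N y * (N / Real.log N ^ 2))).card

section conversion

variable (F G : ℤ[X])

private lemma eval_lin (hG : G.natDegree = 1) (hG0 : 0 < G.leadingCoeff) (n : ℤ) :
    G.eval n = (G.coeff 1).toNat * n + G.coeff 0 := by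
  have h1 : G.leadingCoeff = G.coeff 1 := by rw [leadingCoeff, hG]
  rw [h1] at hG0
  rw [Int.toNat_of_nonneg hG0.le]
  conv_lhs => rw [eq_X_add_C_of_natDegree_le_one hG.le]
  simp

private lemma eval_prod (hG : G.natDegree = 1) (hG0 : 0 < G.leadingCoeff) (N : ℕ) (n : ℤ) :
    (F * (C (N : ℤ) - G)).eval n =
      F.eval n * (((N : ℤ) - G.coeff 0) - (G.coeff 1).toNat * n) := by
  rw [eval_mul, eval_sub, eval_C, eval_lin G hG hG0]
  ring

end conversion

private lemma adm_iff (F G : ℤ[X]) (hG : G.natDegree = 1) (hG0 : 0 < G.leadingCoeff) (N : ℕ)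
    (h : Admissible F G N) (p : ℕ) (hp : p.Prime) :
    Pool.Agent.J4.H29.SP.Adm F (G.coeff 1).toNat ((N : ℤ) - G.coeff 0) p := by
  obtain ⟨n, hn⟩ := h.2 p hp
  rw [eval_prod F G hG hG0] at hn
  exact ⟨n, hn⟩

private lemma singular_eq (F G : ℤ[X]) (hG : G.natDegree = 1) (hG0 : 0 < G.leadingCoeff)
    (N y : ℕ) :
    singular F G N y = Pool.Agent.J4.H29.SP.sg F (G.coeff 1).toNat ((N : ℤ) - G.coeff 0) y := by
  unfold singular Pool.Agent.J4.H29.SP.sg omega Pool.Agent.J4.H29.SP.om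
  simp only [eval_prod F G hG hG0]

private lemma good_eq (F G : ℤ[X]) (hG : G.natDegree = 1) (hG0 : 0 < G.leadingCoeff) (r N : ℕ) :
    Good F G r N = Pool.Agent.J4.H29.SP.cset F (G.coeff 1).toNat (G.coeff 0) r N := by
  unfold Good Pool.Agent.J4.H29.SP.cset
  simp only [eval_lin G hG hG0]

open Classical in
private lemma exceptions_le (F G : ℤ[X]) (hG : G.natDegree = 1) (hG0 : 0 < G.leadingCoeff)
    (r : ℕ) (δ : ℝ) (X : ℕ) :
    exceptions F G r δ X ≤
      ((Icc 1 X).filter (fun N : ℕ => (∀ p : ℕ, p.Prime → Pool.Agent.J4.H29.SP.Adm F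
          (G.coeff 1).toNat ((N : ℤ) - G.coeff 0) p) ∧
        ∃ y : ℕ, N ≤ y ∧ ((Pool.Agent.J4.H29.SP.cset F (G.coeff 1).toNat (G.coeff 0) r N).ncard : ℝ) <
          δ * Pool.Agent.J4.H29.SP.sg F (G.coeff 1).toNat ((N : ℤ) - G.coeff 0) y *
            (N / Real.log N ^ 2))).card := by
  unfold exceptions
  apply card_le_card
  intro N hN
  rw [mem_filter] at hN ⊢
  obtain ⟨h1, h2, y, hy, h3⟩ := hN
  refine ⟨h1, fun p hp => adm_iff F G hG hG0 N h2 p hp, y, hy, ?_⟩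
  rw [singular_eq F G hG hG0, good_eq F G hG hG0] at h3
  exact h3

/-- **Schinzel's hypothesis with few exceptions, `F(n)` almost prime.** -/
theorem result :
    ∀ F G : ℤ[X], Irreducible F → 0 < F.natDegree → 0 < F.leadingCoeff →
      G.natDegree = 1 → 0 < G.leadingCoeff →
      (∃ c : ℝ, 0 < c ∧ ∀ N y : ℕ, Admissible F G N → 3 ≤ y → c ≤ singular F G N y) ∧
      (∃ δ A : ℝ, 0 < δ ∧ 0 < A ∧ ∀ X : ℕ, 1 ≤ X →
        (exceptions F G (F.natDegree + 1) δ X : ℝ) ≤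
          A * (X : ℝ) ^ (((10 : ℝ) * F.natDegree - 7) / (10 * F.natDegree + 7))) ∧
      (∀ r : ℕ, 1 ≤ r → ∀ θ : ℝ, 1 / 2 ≤ θ → θ < 1 → (F.natDegree : ℝ) < θ * Lam r →
        ∀ ε : ℝ, 0 < ε → ∃ δ A : ℝ, 0 < δ ∧ 0 < A ∧ ∀ X : ℕ, 1 ≤ X →
          (exceptions F G r δ X : ℝ) ≤ A * (X : ℝ) ^ (2 * θ - 1 + ε)) := by
  classical
  intro F G hF hd hl hG hG0
  have hm : 1 ≤ (G.coeff 1).toNat := by
    have h1 : G.leadingCoeff = G.coeff 1 := by rw [leadingCoeff, hG]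
    omega
  refine ⟨?_, ?_, ?_⟩
  · obtain ⟨c, hc, H⟩ := Pool.Agent.J4.H29.SP.sg_low F hF hd _ hm
    refine ⟨c, hc, fun N y hN hy => ?_⟩
    rw [singular_eq F G hG hG0]
    exact H _ (fun p hp => adm_iff F G hG hG0 N hN p hp) y hy
  · have h1 : (0 : ℝ) ≤ ((10 : ℝ) * F.natDegree - 7) / (10 * F.natDegree + 7) := by
      have : (1 : ℝ) ≤ F.natDegree := by exact_mod_cast hd
      apply div_nonneg <;> linarith
    obtain ⟨δ, A, hδ, hA, H⟩ := Pool.Agent.J4.H29.SP.upgrade F hF hd _ hm (G.coeff 0) _ _ h1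
      (Pool.Agent.J4.H29.SP.cumul_succ F hF hd hl _ hm (G.coeff 0))
    refine ⟨δ, A, hδ, hA, fun X hX => le_trans ?_ (H X hX)⟩
    exact Nat.cast_le.2 (exceptions_le F G hG hG0 _ δ X)
  · intro r hr θ hθ0 hθ1 hΛ ε hε
    obtain ⟨δ, A, hδ, hA, H⟩ := Pool.Agent.J4.H29.SP.upgrade F hF hd _ hm (G.coeff 0) r
      (2 * θ - 1 + ε) (by linarith)
      (Pool.Agent.J4.H29.SP.cumul F hF hd hl _ hm (G.coeff 0) r hr θ hθ0 hθ1 hΛ ε hε)
    refine ⟨δ, A, hδ, hA, fun X hX => le_trans ?_ (H X hX)⟩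
    exact Nat.cast_le.2 (exceptions_le F G hG hG0 r δ X)

end Pool.Agent.Results.MP_0bf1d2_nt.LinearFewExceptions
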