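import Mathlib
import Pool.Agent.J4.H38.BP.FinI

/-!
# Systems of linear polynomials in Schinzel's Goldbach type problem, in arbitrary dense sets

Schinzel's problem: `F_1(n), ..., F_g(n)` and `N - G(n)` are primes. Here `F_i(n) = n + h_i` is an ARBITRARY admissible system `T0` of `m` linear
polynomials and `G(n) = n`. The integers `n ≤ N` for which all `F_i(n)` are free of prime factors `≤ N ^ κ` (almost primes) form a sparse set of
about `N / (log N) ^ m` integers. For EVERY large `N`, ANY set `P` of a positive proportion of these integers and almost all `M` (`m` in the notation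
below) among the multiples of a fixed number `W` in the very short interval `(N, N + H]`, where `H` is only a large multiple of `log N`, the expected
number of the `n` in `P`, up to an absolute constant, is such that `M - n` has at most two prime factors; and the same for `k` numbers
`M` at once, with a common `n`.

Method: the set of the sifted integers is majorised by an upper bound sieve (fundamental lemma); relative to it the sets
`{n : M - n without small prime factors}` are nearly orthogonal for almost all pairs `M, M'` (pair correlations), so by duality almost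
all of them meet the arbitrary set `P` as often as they should. Then Richert's weighted sieve of level `111/200 > 1/2` and the large sieve
inequality for the shifts, for the weight given by `P`.
-/

set_option autoImplicit false

namespace Pool.Agent.Results.MP_0bf1d2_nt.LinearSystemsDenseSets

open Finset Filter

/-- the multiples of `W` in `(N, N + H]` -/
def multiples (W N H : ℕ) : Finset ℕ := (Ioc N (N + H)).filter (fun m => W ∣ m)

open Classical in
/-- the integers `n ≤ N` such that no `n + h`, `h ∈ T0`, has a prime factor `≤ N ^ κ` -/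
noncomputable def sifted (T0 : Finset ℕ) (κ : ℝ) (N : ℕ) : Finset ℕ :=
  (Icc 1 N).filter (fun n => ∀ h ∈ T0, ∀ q : ℕ, q.Prime → (q : ℝ) ≤ (N : ℝ) ^ κ → ¬ q ∣ n + h)

open Classical in
/-- the number of the `n` in `P` such that every `m - n`, `m ∈ M`, is an integer `> 1` with at most two prime factors (counted
with multiplicity), all of them at least `N ^ (1/7)` -/
noncomputable def count (N : ℕ) (P M : Finset ℕ) : ℕ :=
  (P.filter (fun n => ∀ m ∈ M, 1 < m - n ∧ (m - n).primeFactorsList.length ≤ 2 ∧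
    ∀ q ∈ (m - n).primeFactors, (N : ℝ) ^ (1 / 7 : ℝ) ≤ q)).card

section
open Pool.Agent.J4.H38.DV
open Pool.Agent.J4.H38.BP
open Pool.Agent.H373R2.T7 (pz Vz mem_pz)

/-- reflection -/
lemma piD_le {N : ℕ} {P M : Finset ℕ} (hM : ∀ m ∈ M, N < m) :
    piD P (M.image (fun m => m - N)) N ≤ count N P M := by
  classical
  unfold piD count
  refine card_le_card_of_injOn (fun n => N - n) (fun n hn => ?_) fun n hn n' hn' h => ?_
  · rw [mem_coe, mem_filter, mem_Icc] at hn
    rw [mem_coe, mem_filter]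
    obtain ⟨⟨h1, h2⟩, h3, h4⟩ := hn
    refine ⟨h3, fun m hm => ?_⟩
    have hNm := hM m hm
    have e : m - (N - n) = n + (m - N) := by omega
    simp only
    rw [e]
    exact ⟨by omega, h4 _ (mem_image_of_mem _ hm)⟩
  · rw [mem_coe, mem_filter, mem_Icc] at hn hn'
    simp only at h
    omega

/-- the product of the primes up to `w` -/
lemma W_pos (w : ℕ) : 1 ≤ ∏ p ∈ pz w, p := prod_pos fun _ hp => (mem_pz.1 hp).2.pos

/-- the number of the multiples -/
lemma card_multiples {W : ℕ} (hW : 1 ≤ W) (N H : ℕ) :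
    ((multiples W N H).card : ℝ) ≤ H / W + 1 ∧ (H : ℝ) / W - 1 ≤ (multiples W N H).card := by
  have hWr : (0 : ℝ) < W := by exact_mod_cast hW
  have h1 : (multiples W N H).card + N / W = (N + H) / W := by
    unfold multiples
    rw [← Nat.Ioc_filter_dvd_card_eq_div N W, ← Nat.Ioc_filter_dvd_card_eq_div (N + H) W,
      ← card_union_of_disjoint]
    · congr 1
      ext m
      simp only [mem_union, mem_filter, mem_Ioc]
      constructor
      · rintro (⟨⟨h1, h2⟩, h3⟩ | ⟨⟨h1, h2⟩, h3⟩)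
        · exact ⟨⟨by omega, h2⟩, h3⟩
        · exact ⟨⟨h1, by omega⟩, h3⟩
      · rintro ⟨⟨h1, h2⟩, h3⟩
        by_cases h : N < m
        · exact Or.inl ⟨⟨h, h2⟩, h3⟩
        · exact Or.inr ⟨⟨h1, by omega⟩, h3⟩
    · rw [disjoint_left]
      intro m hm hm'
      have h1 := (mem_Ioc.1 (mem_filter.1 hm).1).1
      have h2 := (mem_Ioc.1 (mem_filter.1 hm').1).2
      omega
  have h2 : (((N + H) / W : ℕ) : ℝ) ≤ ((N : ℝ) + H) / W := by
    have := Nat.cast_div_le (α := ℝ) (m := N + H) (n := W)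
    push_cast at this
    exact this
  have h3 : (N : ℝ) / W ≤ ((N / W : ℕ) : ℝ) + 1 := by
    rw [div_le_iff₀ hWr]
    have := Nat.lt_div_mul_add (a := N) hW
    have h4 : (N : ℝ) ≤ ((N / W * W + W : ℕ) : ℝ) := by exact_mod_cast this.le
    push_cast at h4
    linarith
  have h4 : ((multiples W N H).card : ℝ) + ((N / W : ℕ) : ℝ) = (((N + H) / W : ℕ) : ℝ) := by exact_mod_cast h1
  rw [add_div] at h2
  refine ⟨by linarith, ?_⟩
  have h5 : ((N : ℝ) + H) / W ≤ (((N + H) / W : ℕ) : ℝ) + 1 := by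
    rw [div_le_iff₀ hWr]
    have := Nat.lt_div_mul_add (a := N + H) hW
    have h4 : ((N + H : ℕ) : ℝ) ≤ (((N + H) / W * W + W : ℕ) : ℝ) := by exact_mod_cast this.le
    push_cast at h4
    linarith
  have h6 : ((N / W : ℕ) : ℝ) ≤ (N : ℝ) / W := Nat.cast_div_le
  rw [add_div] at h5
  linarith

/-- the shifts -/
lemma multiples_eq (w N H : ℕ) : (AW w N H).image (fun t => N + t) = multiples (∏ p ∈ pz w, p) N H := by
  ext m
  unfold AW multiples
  rw [mem_image, mem_filter, mem_Ioc]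
  constructor
  · rintro ⟨t, ht, rfl⟩
    rw [mem_filter, mem_Icc] at ht
    exact ⟨⟨by omega, by omega⟩, ht.2⟩
  · rintro ⟨⟨h1, h2⟩, h3⟩
    refine ⟨m - N, ?_, by omega⟩
    rw [mem_filter, mem_Icc, show N + (m - N) = m by omega]
    exact ⟨⟨by omega, by omega⟩, h3⟩

end

/-- **Systems of linear polynomials, arbitrary dense sets.** There is an absolute constant `c > 0` with the following property. Let `T0` be a
finite set of integers `≥ 0` with `0 ∈ T0` which does not cover all residues modulo any prime. For all `k ≥ 1` and `κ, δ, ε > 0` there are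
an even `W ≥ 1`, `Λ` and `N₀` such that for all `N ≥ N₀`, EVERY set `P` of at least `δ N / (log N) ^ #T0` integers `n ≤ N` for which no `n + h`, `h ∈ T0`,
has a prime factor `≤ N ^ κ`, and all `H` with `Λ log N ≤ H ≤ N`: for all but at most `ε (H / W) ^ k` of the sets `M` of `k` multiples of
`W` in `(N, N + H]` there are at least `c ^ k #P / (log N) ^ k` elements `n` of `P` such that all the `m - n`, `m ∈ M`, have at most two prime
factors, all of them at least `N ^ (1/7)`. -/
theorem result :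
    ∃ c : ℝ, 0 < c ∧ ∀ T0 : Finset ℕ, 0 ∈ T0 → (∀ p : ℕ, p.Prime → ∃ a : ℕ, ∀ h ∈ T0, ¬ p ∣ a + h) →
      ∀ k : ℕ, 1 ≤ k → ∀ κ δ ε : ℝ, 0 < κ → 0 < δ → 0 < ε → ∃ (W : ℕ) (Λ : ℝ) (N₀ : ℕ), 1 ≤ W ∧ 2 ∣ W ∧ 0 < Λ ∧
      ∀ N : ℕ, N₀ ≤ N → ∀ P ⊆ sifted T0 κ N, δ * (N / Real.log N ^ T0.card) ≤ P.card →
      ∀ H : ℕ, Λ * Real.log N ≤ H → H ≤ N →
        ((((multiples W N H).powersetCard k).filter (fun M =>
          (count N P M : ℝ) < c ^ k * (P.card / Real.log N ^ k))).card : ℝ) ≤ ε * ((H : ℝ) / W) ^ k := by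
  classical
  obtain ⟨c, hc, hmain⟩ := Pool.Agent.J4.H38.BP.relGI
  have hlim : Tendsto (fun N : ℕ => Real.log (N : ℝ)) atTop atTop :=
    Real.tendsto_log_atTop.comp (tendsto_natCast_atTop_atTop (R := ℝ))
  obtain ⟨N₁, hN₁⟩ := eventually_atTop.1 (hlim.eventually_ge_atTop 1)
  refine ⟨c, hc, fun T0 h0 hadm k hk κ δ ε hκ hδ hε => ?_⟩
  have hadm' : ∀ p : ℕ, p.Prime → Pool.Agent.J4.H38.SR.fT T0 p < p := by
    intro p hp
    obtain ⟨a, ha⟩ := hadm p hp
    unfold Pool.Agent.J4.H38.SR.fT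
    have h1 : (range p).filter (fun r => ∃ t ∈ T0, p ∣ r + t) ⊂ range p := by
      rw [filter_ssubset]
      refine ⟨a % p, mem_range.2 (Nat.mod_lt _ hp.pos), ?_⟩
      rintro ⟨t, ht, h2⟩
      refine ha t ht ?_
      rw [Nat.dvd_iff_mod_eq_zero] at h2 ⊢
      rwa [Nat.add_mod, Nat.mod_mod, ← Nat.add_mod] at h2
    have h2 := card_lt_card h1
    rwa [card_range] at h2
  obtain ⟨j, rfl⟩ : ∃ j, k = j + 1 := ⟨k - 1, by omega⟩
  obtain ⟨w, hw, h⟩ := hmain T0 0 h0 hadm' j δ (ε / 2 ^ (j + 1)) κ hδ (by positivity) hκ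
  obtain ⟨Λ, hΛ, h⟩ := h w le_rfl
  obtain ⟨N₀, hN₀⟩ := eventually_atTop.1 h
  have hW := W_pos w
  have hWr : (0 : ℝ) < ((∏ p ∈ Pool.Agent.H373R2.T7.pz w, p : ℕ) : ℝ) := by exact_mod_cast hW
  refine ⟨∏ p ∈ Pool.Agent.H373R2.T7.pz w, p, max Λ ((∏ p ∈ Pool.Agent.H373R2.T7.pz w, p : ℕ) : ℝ), max N₀ N₁, hW,
    dvd_prod_of_mem _ (Pool.Agent.H373R2.T7.mem_pz.2 ⟨hw, Nat.prime_two⟩), lt_max_of_lt_left hΛ,
    fun N hN P hP hPc H hH1 hH2 => ?_⟩
  have hL1 := hN₁ N ((le_max_right _ _).trans hN)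
  have hHΛ : Λ * Real.log N ≤ H := (mul_le_mul_of_nonneg_right (le_max_left _ _) (by linarith)).trans hH1
  have hHW : ((∏ p ∈ Pool.Agent.H373R2.T7.pz w, p : ℕ) : ℝ) ≤ H := by
    calc ((∏ p ∈ Pool.Agent.H373R2.T7.pz w, p : ℕ) : ℝ) = ((∏ p ∈ Pool.Agent.H373R2.T7.pz w, p : ℕ) : ℝ) * 1 := (mul_one _).symm
      _ ≤ ((∏ p ∈ Pool.Agent.H373R2.T7.pz w, p : ℕ) : ℝ) * Real.log N := mul_le_mul_of_nonneg_left hL1 hWr.le
      _ ≤ max Λ ((∏ p ∈ Pool.Agent.H373R2.T7.pz w, p : ℕ) : ℝ) * Real.log N :=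
        mul_le_mul_of_nonneg_right (le_max_right _ _) (by linarith)
      _ ≤ H := hH1
  have hP1 : ∀ n ∈ P, (1 ≤ n ∧ n ≤ N) ∧ ∀ h ∈ T0, ∀ q : ℕ, q.Prime → (q : ℝ) ≤ (N : ℝ) ^ κ → ¬ q ∣ n + h := by
    intro n hn
    have h1 := hP hn
    unfold sifted at h1
    rw [mem_filter, mem_Icc] at h1
    exact h1
  obtain ⟨Bad, hBd⟩ : ∃ Bad, Bad = ((multiples (∏ p ∈ Pool.Agent.H373R2.T7.pz w, p) N H).powersetCard (j + 1)).filter
    (fun M => (count N P M : ℝ) < c ^ (j + 1) * (P.card / Real.log N ^ (j + 1))) := ⟨_, rfl⟩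
  have hBad : ∀ M ∈ Bad, M ∈ (multiples (∏ p ∈ Pool.Agent.H373R2.T7.pz w, p) N H).powersetCard (j + 1) ∧
      (count N P M : ℝ) < c ^ (j + 1) * (P.card / Real.log N ^ (j + 1)) := fun M hM => by
    rw [hBd] at hM
    exact mem_filter.1 hM
  have hinjN : Function.Injective (fun t : ℕ => N + t) := fun a b h => by simpa using h
  have hcard : (multiples (∏ p ∈ Pool.Agent.H373R2.T7.pz w, p) N H).card = (Pool.Agent.J4.H38.DV.AW w N H).card := by
    rw [← multiples_eq, card_image_of_injective _ hinjN]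
  have hMN : ∀ M ∈ Bad, ∀ m ∈ M, N < m := fun M hM m hm =>
    (mem_Ioc.1 (mem_filter.1 ((mem_powersetCard.1 (hBad M hM).1).1 hm)).1).1
  have hinj : Set.InjOn (fun M : Finset ℕ => M.image (fun m => m - N)) (Bad : Set (Finset ℕ)) := by
    intro M hM M' hM' hE
    have key : ∀ M ∈ Bad, (M.image (fun m => m - N)).image (fun t => N + t) = M := by
      intro M hM
      rw [image_image]
      conv_rhs => rw [← image_id (s := M)]
      refine image_congr fun m hm => ?_
      have := hMN M hM m hm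
      simp only [Function.comp, id]
      omega
    have h1 := congrArg (fun D : Finset ℕ => D.image (fun t => N + t)) hE
    simp only at h1
    rwa [key M hM, key M' hM'] at h1
  have h1 := hN₀ N ((le_max_left _ _).trans hN) H hHΛ hH2 P (fun n hn => mem_Icc.2 (hP1 n hn).1)
    (fun n hn => ⟨(hP1 n hn).1.1, fun h hh q hq hqN => by rw [Nat.sub_zero]; exact (hP1 n hn).2 h hh q hq hqN⟩) hPc
    (Bad.image (fun M : Finset ℕ => M.image (fun m => m - N))) ?_
  · rw [card_image_of_injOn hinj, ← hcard] at h1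
    rw [← hBd]
    refine h1.trans ?_
    have h1 : (1 : ℝ) ≤ H / ((∏ p ∈ Pool.Agent.H373R2.T7.pz w, p : ℕ) : ℝ) := by rwa [le_div_iff₀ hWr, one_mul]
    have h2 := (card_multiples hW N H).1
    have h3 : ((multiples (∏ p ∈ Pool.Agent.H373R2.T7.pz w, p) N H).card : ℝ) ^ (j + 1) ≤
        (2 * ((H : ℝ) / ((∏ p ∈ Pool.Agent.H373R2.T7.pz w, p : ℕ) : ℝ))) ^ (j + 1) :=
      pow_le_pow_left₀ (Nat.cast_nonneg _) (by linarith) _
    calc ε / 2 ^ (j + 1) * ((multiples (∏ p ∈ Pool.Agent.H373R2.T7.pz w, p) N H).card : ℝ) ^ (j + 1)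
        ≤ ε / 2 ^ (j + 1) * (2 * ((H : ℝ) / ((∏ p ∈ Pool.Agent.H373R2.T7.pz w, p : ℕ) : ℝ))) ^ (j + 1) :=
          mul_le_mul_of_nonneg_left h3 (by positivity)
      _ = ε * ((H : ℝ) / ((∏ p ∈ Pool.Agent.H373R2.T7.pz w, p : ℕ) : ℝ)) ^ (j + 1) := by
          rw [mul_pow]
          field_simp
  · intro D hD
    obtain ⟨M, hM, rfl⟩ := mem_image.1 hD
    obtain ⟨b1, b2⟩ := hBad M hM
    rw [mem_powersetCard] at b1
    refine ⟨?_, lt_of_le_of_lt ?_ b2⟩
    · rw [mem_powersetCard]
      refine ⟨?_, ?_⟩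
      · intro t ht
        obtain ⟨m, hm, rfl⟩ := mem_image.1 ht
        have h2 := b1.1 hm
        rw [← multiples_eq, mem_image] at h2
        obtain ⟨t, ht, h3⟩ := h2
        have h4 : m - N = t := by omega
        rw [h4]
        exact ht
      · rw [card_image_of_injOn, b1.2]
        intro a ha b hb hE
        have h2 := hMN M hM a ha
        have h3 := hMN M hM b hb
        simp only at hE
        omega
    · exact_mod_cast piD_le (hMN M hM)

end Pool.Agent.Results.MP_0bf1d2_nt.LinearSystemsDenseSets
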