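import Pool.Agent.J4.H35.PPa
import Pool.Agent.TH894.SM0

/-!
# Goldbach representation numbers of all even integers near `α n ^ c`, uniformly in `α`, for every real `c`

Let `c` be any real number other than `0, 1, 2, …` (for instance `c = -1`). Uniformly in the real numbers `α > 0`
with `N ^ δ ≤ α N ^ c ≤ N ^ K`, for all but at most `N / log ^ U N` of the integers `n ∈ [N, 2 N)`, EVERY even
integer `m > 0` at a distance of at most `log ^ W N` from `α n ^ c` has the predicted number of representations as a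
sum of two primes, with the first prime in an arbitrary interval of length at least `m / log ^ A m`. In the notation
of the problem this is the case `g = 1`, `F₁ = G = x`, of the asymptotic formula, for almost all members of each of
these families of admissible numbers. For `c = -1`, `α = x`: all the even integers next to the quotients `x / n`.

Definitions used from `Pool.Agent.H560R3.GB` (starting files): `C₂`: the twin prime constant
`∏_{p > 2} (1 - 1 / (p - 1) ^ 2)`; `sing m`: the singular series `2 C₂ ∏_{p ∣ m, p > 2} (p - 1) / (p - 2)`.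
-/

set_option autoImplicit false

namespace Pool.Agent.Results.MP_0bf1d2_nt.PowerPhases

open Finset
open Pool.Agent.H560R3.GB (sing C₂)

/-- The number of primes `p`, `y₁ < p ≤ y₂`, for which `m - p` is a prime (used for `y₂ ≤ m`; for `y₁ = 0` and
`y₂ = m` this is the number `Q₁(m)` of the problem for `g = 1`, `F₁ = G = x`). -/
def R (m y₁ y₂ : ℕ) : ℕ := ((Ioc y₁ y₂).filter (fun p => p.Prime ∧ (m - p).Prime)).card

/-- For all `y₁ < y₂ ≤ m` with `y₂ - y₁ ≥ m / log ^ A m`, the number `R m y₁ y₂` agrees with the prediction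
`sing m * (y₂ - y₁) / log ^ 2 m` up to a relative error of at most `ε`. -/
def Holds (ε : ℝ) (A m : ℕ) : Prop :=
  ∀ y₁ y₂ : ℕ, y₁ < y₂ → y₂ ≤ m → (m : ℝ) / Real.log m ^ A ≤ (y₂ : ℝ) - y₁ →
    |(R m y₁ y₂ : ℝ) - sing m * ((y₂ : ℝ) - y₁) / Real.log m ^ 2| ≤ ε * (sing m * ((y₂ : ℝ) - y₁) / Real.log m ^ 2)

open Classical in
/-- The number of the integers `n ∈ [N, 2 N)` for which `Holds` fails for some even integer `m > 0` at a distance
of at most `log ^ W N` from `α n ^ c`. -/
noncomputable def exceptions (c α ε : ℝ) (A W N : ℕ) : ℕ :=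
  ((Ico N (2 * N)).filter (fun n : ℕ => ∃ m : ℕ, 0 < m ∧ Even m ∧
    |(m : ℝ) - α * (n : ℝ) ^ c| ≤ Real.log N ^ W ∧ ¬ Holds ε A m)).card

/-- **Power phases.** Let `c` be a real number which is not one of `0, 1, 2, …`, let `δ > 0`, `K`, `ε > 0` and the
natural numbers `A`, `W`, `U` be fixed, and let `N` be large. For every real `α > 0` with
`N ^ δ ≤ α N ^ c ≤ N ^ K`, for all but at most `N / log ^ U N` of the integers `n ∈ [N, 2 N)` ALL the even integers
`m > 0` at a distance of at most `log ^ W N` from `α n ^ c` have the following property: for all `y₁ < y₂ ≤ m` with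
`y₂ - y₁ ≥ m / log ^ A m`, the number of the representations `m = p + q` with primes `p`, `q` and `y₁ < p ≤ y₂`
agrees with the prediction of Hardy and Littlewood up to a relative error of at most `ε`. -/
theorem result (c : ℝ) (hc : ∀ k : ℕ, c ≠ k) (δ K : ℝ) (hδ : 0 < δ) (A W U : ℕ) (ε : ℝ) (hε : 0 < ε) :
    ∃ N₀ : ℕ, ∀ N : ℕ, N₀ ≤ N → ∀ α : ℝ, 0 < α → (N : ℝ) ^ δ ≤ α * (N : ℝ) ^ c → α * (N : ℝ) ^ c ≤ (N : ℝ) ^ K →
      (exceptions c α ε A W N : ℝ) ≤ N / Real.log N ^ U := by
  classical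
  obtain ⟨N₀, h⟩ := Pool.Agent.J4.H35.PP.near_pw hc δ K hδ A W U 0 ε hε (Holds ε A)
    (fun m _ _ hw y₁ y₂ h12 hy hlen => hw y₁ y₂ h12 hy hlen)
  refine ⟨N₀, fun N hN α hα h1 h2 => ?_⟩
  have key := h N hN α hα h1 h2 (univ.filter (fun i : Fin N => ∃ m : ℕ, 0 < m ∧ Even m ∧
    |(m : ℝ) - α * ((N : ℝ) + (i : ℕ)) ^ c| ≤ Real.log N ^ W ∧ ¬ Holds ε A m)) (fun i hi => (mem_filter.1 hi).2)
  refine le_trans ?_ key
  unfold exceptions
  have : ((Ico N (2 * N)).filter (fun n : ℕ => ∃ m : ℕ, 0 < m ∧ Even m ∧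
      |(m : ℝ) - α * (n : ℝ) ^ c| ≤ Real.log N ^ W ∧ ¬ Holds ε A m)).card ≤
      (univ.filter (fun i : Fin N => ∃ m : ℕ, 0 < m ∧ Even m ∧
        |(m : ℝ) - α * ((N : ℝ) + (i : ℕ)) ^ c| ≤ Real.log N ^ W ∧ ¬ Holds ε A m)).card := by
    refine card_le_card_of_surjOn (fun i : Fin N => N + (i : ℕ)) ?_
    intro n hn
    rw [mem_coe, mem_filter, mem_Ico] at hn
    obtain ⟨⟨h3, h4⟩, m, m1, m2, m3, m4⟩ := hn
    refine ⟨⟨n - N, by omega⟩, ?_, ?_⟩
    · rw [mem_coe, mem_filter]
      refine ⟨mem_univ _, m, m1, m2, ?_, m4⟩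
      have e : ((N : ℝ) + ((⟨n - N, by omega⟩ : Fin N) : ℕ)) = n := by
        simp only
        rw [Nat.cast_sub h3]
        ring
      rw [e]
      exact m3
    · simp only
      omega
  exact_mod_cast this

end Pool.Agent.Results.MP_0bf1d2_nt.PowerPhases
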